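import Pool.Agent.Work.MP_8d2cba_co_h18.Basic
import Pool.Agent.Work.MP_8d2cba_co_h18.Interface2

/-! MP_8d2cba_co, block CPL: greedy choice of the couples. -/

set_option autoImplicit false
set_option maxHeartbeats 4000000
set_option linter.unusedSectionVars false

namespace Pool.OM.helper52

open Finset Pool.OM

section cnt
variable {G : Type} [Fintype G]

open Classical in
/-- number of elements with the property `P` -/
noncomputable def bad (P : G → Prop) : ℕ := (univ.filter P).card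

lemma bad_or (P Q : G → Prop) : bad (fun x => P x ∨ Q x) ≤ bad P + bad Q := by
  classical
  unfold bad
  refine le_trans (card_le_card ?_) (card_union_le _ _)
  intro x hx
  simpa using hx

lemma bad_mem [DecidableEq G] {f : G → G} (hf : Function.Injective f) (S : Finset G) :
    bad (fun x => f x ∈ S) ≤ S.card := by
  classical
  unfold bad
  apply card_le_card_of_injOn f
  · intro x hx
    simpa using hx
  · exact fun a _ b _ h => hf h

lemma bad_eq {f : G → G} (hf : Function.Injective f) (a : G) : bad (fun x => f x = a) ≤ 1 := by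
  classical
  have := bad_mem hf {a}
  simpa using this

lemma bad_ex {α : Type} (S : Finset α) (P : α → G → Prop) (m : ℕ)
    (h : ∀ a ∈ S, bad (P a) ≤ m) : bad (fun x => ∃ a ∈ S, P a x) ≤ S.card * m := by
  classical
  induction S using Finset.induction_on with
  | empty => simp [bad]
  | insert a S ha ih =>
    have h1 : (fun x => ∃ b ∈ insert a S, P b x) = fun x => P a x ∨ ∃ b ∈ S, P b x := by
      funext x
      simp
    rw [h1, card_insert_of_notMem ha]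
    have h2 := bad_or (P a) (fun x => ∃ b ∈ S, P b x)
    have h3 := ih fun b hb => h b (mem_insert_of_mem hb)
    have h4 := h a (mem_insert_self _ _)
    calc _ ≤ _ := h2
      _ ≤ m + S.card * m := add_le_add h4 h3
      _ = (S.card + 1) * m := by ring

lemma bad_rt [Group G] [DecidableEq G] {f : G → G} (hf : Function.Injective f) (K : ℕ) :
    bad (fun x => Fintype.card G < K * rt (f x)) ≤ K := by
  classical
  refine le_trans ?_ (card_badrt (G := G) K)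
  unfold bad
  apply card_le_card_of_injOn f
  · intro x hx
    simpa using hx
  · exact fun a _ b _ h => hf h

lemma exists_good {P : G → Prop} (h : bad P < Fintype.card G) : ∃ x, ¬ P x := by
  classical
  by_contra hcon
  push Not at hcon
  unfold bad at h
  rw [filter_true_of_mem (fun x _ => hcon x), card_univ] at h
  exact lt_irrefl _ h

end cnt

variable {G : Type} [Group G] [Fintype G] [DecidableEq G]

lemma odd_sq {k : ℕ} (hk : k = 4) (hkn : k ∣ Fintype.card G - 1) {x : G} (hx : x * x = 1) :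
    x = 1 := by
  subst hk
  have hn : 0 < Fintype.card G := Fintype.card_pos
  have h1 : (2 : ℕ).gcd (Fintype.card G) = 1 := by
    have h2 : Fintype.card G % 2 = 1 := by
      obtain ⟨m, hm⟩ := hkn
      omega
    rw [← Nat.coprime_iff_gcd_eq_one, Nat.coprime_two_left]
    exact Nat.odd_iff.2 h2
  have h3 : x ^ 2 = 1 := by rw [sq]; exact hx
  have h4 := pow_gcd_eq_one.2 ⟨h3, pow_card_eq_one (x := x)⟩
  rw [h1, pow_one] at h4
  exact h4

/-- choice of `g` -/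
lemma exG {K k : ℕ} {γ s : G} {Q : Finset (Cp G)} {X Y : Finset G} (hkn : k ∣ Fintype.card G - 1)
    (hγ : γ * γ = 1) (hn : Q.card * (K + 3) + X.card + 2 * Y.card + 9 < Fintype.card G)
    (h1 : ∀ c ∈ Q, s * γ ≠ c.r) (h2 : ∀ c ∈ Q, K * rt (s⁻¹ * c.r * γ) ≤ Fintype.card G)
    (h3 : k = 3 → ∀ c ∈ Q, c.g = 1) (h4 : ∀ c ∈ Q, s ≠ c.s) :
    ∃ g : G, (k = 3 → g = 1) ∧ (∀ c ∈ Q, s * g * γ ≠ c.r) ∧
      (∀ c ∈ Q, K * rt (g⁻¹ * s⁻¹ * c.r * γ * c.g⁻¹) ≤ Fintype.card G) ∧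
      (∀ c ∈ Q, s * g ≠ c.s * c.g) ∧ (k ≠ 3 → ∀ c ∈ Q, g ≠ c.g) ∧
      (k ≠ 3 → s * g ∉ X ∧ g ≠ 1) ∧ (k = 4 → g⁻¹ ∉ Y ∧ γ * g * γ ∉ Y ∧ g⁻¹ ≠ γ * g * γ) ∧
      (k = 5 → 8 * rt g ≤ Fintype.card G) := by
  by_cases hk : k = 3
  · refine ⟨1, fun _ => rfl, ?_, ?_, ?_, fun h => absurd hk h, fun h => absurd hk h, ?_, ?_⟩
    · intro c hc
      rw [mul_one]
      exact h1 c hc
    · intro c hc
      rw [h3 hk c hc]
      simpa using h2 c hc
    · intro c hc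
      rw [h3 hk c hc, mul_one, mul_one]
      exact h4 c hc
    · intro h; omega
    · intro h; omega
  · obtain ⟨g, hg⟩ := exists_good (P := fun g : G => (∃ c ∈ Q, s * g * γ = c.r) ∨
      (∃ c ∈ Q, Fintype.card G < K * rt (g⁻¹ * s⁻¹ * c.r * γ * c.g⁻¹)) ∨
      (∃ c ∈ Q, s * g = c.s * c.g) ∨ (∃ c ∈ Q, g = c.g) ∨ s * g ∈ X ∨ g = 1 ∨ g⁻¹ ∈ Y ∨
      γ * g * γ ∈ Y ∨ Fintype.card G < 8 * rt g) (by
        have b1 : bad (fun g : G => ∃ c ∈ Q, s * g * γ = c.r) ≤ Q.card * 1 :=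
          bad_ex Q (fun c g => s * g * γ = c.r) 1 fun c _ =>
            bad_eq (fun a b h => by simpa using h) _
        have b2 : bad (fun g : G => ∃ c ∈ Q, Fintype.card G < K * rt (g⁻¹ * s⁻¹ * c.r * γ * c.g⁻¹)) ≤
            Q.card * K :=
          bad_ex Q (fun c g => Fintype.card G < K * rt (g⁻¹ * s⁻¹ * c.r * γ * c.g⁻¹)) K fun c _ =>
            bad_rt (f := fun g : G => g⁻¹ * s⁻¹ * c.r * γ * c.g⁻¹) (fun a b h => by simpa using h) K
        have b3 : bad (fun g : G => ∃ c ∈ Q, s * g = c.s * c.g) ≤ Q.card * 1 :=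
          bad_ex Q (fun c g => s * g = c.s * c.g) 1 fun c _ =>
            bad_eq (fun a b h => by simpa using h) _
        have b4 : bad (fun g : G => ∃ c ∈ Q, g = c.g) ≤ Q.card * 1 :=
          bad_ex Q (fun c g => g = c.g) 1 fun c _ =>
            bad_eq (fun a b h => by simpa using h) _
        have b5 : bad (fun g : G => s * g ∈ X) ≤ X.card := bad_mem (fun a b h => by simpa using h) _
        have b6 : bad (fun g : G => g = 1) ≤ 1 := bad_eq (fun a b h => by simpa using h) _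
        have b7 : bad (fun g : G => g⁻¹ ∈ Y) ≤ Y.card := bad_mem (fun a b h => by simpa using h) _
        have b8 : bad (fun g : G => γ * g * γ ∈ Y) ≤ Y.card :=
          bad_mem (fun a b h => by simpa using h) _
        have b9 : bad (fun g : G => Fintype.card G < 8 * rt g) ≤ 8 :=
          bad_rt (f := fun g : G => g) (fun a b h => h) 8
        have c1 := bad_or (fun g : G => ∃ c ∈ Q, s * g * γ = c.r) (fun g => 
          (∃ c ∈ Q, Fintype.card G < K * rt (g⁻¹ * s⁻¹ * c.r * γ * c.g⁻¹)) ∨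
          (∃ c ∈ Q, s * g = c.s * c.g) ∨ (∃ c ∈ Q, g = c.g) ∨ s * g ∈ X ∨ g = 1 ∨ g⁻¹ ∈ Y ∨
          γ * g * γ ∈ Y ∨ Fintype.card G < 8 * rt g)
        have c2 := bad_or (fun g : G =>
          (∃ c ∈ Q, Fintype.card G < K * rt (g⁻¹ * s⁻¹ * c.r * γ * c.g⁻¹))) (fun g =>
          (∃ c ∈ Q, s * g = c.s * c.g) ∨ (∃ c ∈ Q, g = c.g) ∨ s * g ∈ X ∨ g = 1 ∨ g⁻¹ ∈ Y ∨
          γ * g * γ ∈ Y ∨ Fintype.card G < 8 * rt g)
        have c3 := bad_or (fun g : G =>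
          (∃ c ∈ Q, s * g = c.s * c.g)) (fun g => (∃ c ∈ Q, g = c.g) ∨ s * g ∈ X ∨ g = 1 ∨ g⁻¹ ∈ Y ∨
          γ * g * γ ∈ Y ∨ Fintype.card G < 8 * rt g)
        have c4 := bad_or (fun g : G => (∃ c ∈ Q, g = c.g)) (fun g => s * g ∈ X ∨ g = 1 ∨ g⁻¹ ∈ Y ∨
          γ * g * γ ∈ Y ∨ Fintype.card G < 8 * rt g)
        have c5 := bad_or (fun g : G => s * g ∈ X) (fun g => g = 1 ∨ g⁻¹ ∈ Y ∨
          γ * g * γ ∈ Y ∨ Fintype.card G < 8 * rt g)
        have c6 := bad_or (fun g : G => g = 1) (fun g => g⁻¹ ∈ Y ∨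
          γ * g * γ ∈ Y ∨ Fintype.card G < 8 * rt g)
        have c7 := bad_or (fun g : G => g⁻¹ ∈ Y) (fun g =>
          γ * g * γ ∈ Y ∨ Fintype.card G < 8 * rt g)
        have c8 := bad_or (fun g : G => γ * g * γ ∈ Y) (fun g => Fintype.card G < 8 * rt g)
        have e : Q.card * (K + 3) = Q.card * K + 3 * Q.card := by ring
        omega)
    simp only [not_or, not_exists, not_and, not_lt] at hg
    obtain ⟨g1, g2, g3, g4, g5, g6, g7, g8, g9⟩ := hg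
    refine ⟨g, fun h => absurd h hk, g1, g2, g3, fun _ => g4, fun _ => ⟨g5, g6⟩, fun h => ?_,
      fun _ => g9⟩
    refine ⟨g7, g8, ?_⟩
    have hγ1 : γ = 1 := odd_sq h hkn hγ
    intro h5
    rw [hγ1, one_mul, mul_one] at h5
    apply g6
    apply odd_sq h hkn
    nth_rewrite 1 [← h5]
    group

/-- choice of `r` -/
lemma exR {K : ℕ} {γ s g : G} {Q : Finset (Cp G)} {X SQ : Finset G}
    (hn : 2 * X.card + 2 + SQ.card * (K + 2) + Q.card * (K + 3) < Fintype.card G) :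
    ∃ r : G, r ∉ X ∧ r * (γ * g⁻¹ * γ) ∉ X ∧ r ≠ s * g ∧ r * (γ * g⁻¹ * γ) ≠ s * g ∧
      r * γ * g⁻¹ ∉ SQ ∧ (∀ s' ∈ SQ, s' * γ ≠ r) ∧ (∀ c ∈ Q, c.s * c.g * γ ≠ r) ∧
      (∀ s' ∈ SQ, K * rt (s'⁻¹ * r * γ) ≤ Fintype.card G) ∧
      (∀ c ∈ Q, K * rt (c.g⁻¹ * c.s⁻¹ * r * γ * g⁻¹) ≤ Fintype.card G) ∧
      (∀ c ∈ Q, g * γ * r⁻¹ ≠ c.g * γ * c.r⁻¹) ∧
      (∀ c ∈ Q, g * γ * r⁻¹ * s ≠ c.g * γ * c.r⁻¹ * c.s) := by
  obtain ⟨r, hr⟩ := exists_good (P := fun r : G => r ∈ X ∨ r * (γ * g⁻¹ * γ) ∈ X ∨ r = s * g ∨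
      r * (γ * g⁻¹ * γ) = s * g ∨ r * γ * g⁻¹ ∈ SQ ∨ (∃ s' ∈ SQ, r = s' * γ) ∨
      (∃ c ∈ Q, r = c.s * c.g * γ) ∨ (∃ s' ∈ SQ, Fintype.card G < K * rt (s'⁻¹ * r * γ)) ∨
      (∃ c ∈ Q, Fintype.card G < K * rt (c.g⁻¹ * c.s⁻¹ * r * γ * g⁻¹)) ∨
      (∃ c ∈ Q, g * γ * r⁻¹ = c.g * γ * c.r⁻¹) ∨
      (∃ c ∈ Q, g * γ * r⁻¹ * s = c.g * γ * c.r⁻¹ * c.s)) (by
    have b1 : bad (fun r : G => r ∈ X) ≤ X.card := bad_mem (f := fun r => r) (fun a b h => h) _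
    have b2 : bad (fun r : G => r * (γ * g⁻¹ * γ) ∈ X) ≤ X.card :=
      bad_mem (fun a b h => by simpa using h) _
    have b3 : bad (fun r : G => r = s * g) ≤ 1 := bad_eq (f := fun r => r) (fun a b h => h) _
    have b4 : bad (fun r : G => r * (γ * g⁻¹ * γ) = s * g) ≤ 1 :=
      bad_eq (fun a b h => by simpa using h) _
    have b5 : bad (fun r : G => r * γ * g⁻¹ ∈ SQ) ≤ SQ.card :=
      bad_mem (fun a b h => by simpa using h) _
    have b6 : bad (fun r : G => ∃ s' ∈ SQ, r = s' * γ) ≤ SQ.card * 1 :=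
      bad_ex SQ (fun s' r => r = s' * γ) 1 fun s' _ => bad_eq (f := fun r => r) (fun a b h => h) _
    have b7 : bad (fun r : G => ∃ c ∈ Q, r = c.s * c.g * γ) ≤ Q.card * 1 :=
      bad_ex Q (fun c r => r = c.s * c.g * γ) 1 fun c _ => bad_eq (f := fun r => r) (fun a b h => h) _
    have b8 : bad (fun r : G => ∃ s' ∈ SQ, Fintype.card G < K * rt (s'⁻¹ * r * γ)) ≤
        SQ.card * K :=
      bad_ex SQ (fun s' r => Fintype.card G < K * rt (s'⁻¹ * r * γ)) K fun s' _ =>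
        bad_rt (f := fun r : G => s'⁻¹ * r * γ) (fun a b h => by simpa using h) K
    have b9 : bad (fun r : G => ∃ c ∈ Q, Fintype.card G < K * rt (c.g⁻¹ * c.s⁻¹ * r * γ * g⁻¹)) ≤
        Q.card * K :=
      bad_ex Q (fun c r => Fintype.card G < K * rt (c.g⁻¹ * c.s⁻¹ * r * γ * g⁻¹)) K fun c _ =>
        bad_rt (f := fun r : G => c.g⁻¹ * c.s⁻¹ * r * γ * g⁻¹) (fun a b h => by simpa using h) K
    have b10 : bad (fun r : G => ∃ c ∈ Q, g * γ * r⁻¹ = c.g * γ * c.r⁻¹) ≤ Q.card * 1 :=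
      bad_ex Q (fun c r => g * γ * r⁻¹ = c.g * γ * c.r⁻¹) 1 fun c _ =>
        bad_eq (f := fun r : G => g * γ * r⁻¹) (fun a b h => by simpa using h) _
    have b11 : bad (fun r : G => ∃ c ∈ Q, g * γ * r⁻¹ * s = c.g * γ * c.r⁻¹ * c.s) ≤ Q.card * 1 :=
      bad_ex Q (fun c r => g * γ * r⁻¹ * s = c.g * γ * c.r⁻¹ * c.s) 1 fun c _ =>
        bad_eq (f := fun r : G => g * γ * r⁻¹ * s) (fun a b h => by simpa using h) _
    have c1 := bad_or (fun r : G => r ∈ X) (fun r => r * (γ * g⁻¹ * γ) ∈ X ∨ r = s * g ∨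
      r * (γ * g⁻¹ * γ) = s * g ∨ r * γ * g⁻¹ ∈ SQ ∨ (∃ s' ∈ SQ, r = s' * γ) ∨
      (∃ c ∈ Q, r = c.s * c.g * γ) ∨ (∃ s' ∈ SQ, Fintype.card G < K * rt (s'⁻¹ * r * γ)) ∨
      (∃ c ∈ Q, Fintype.card G < K * rt (c.g⁻¹ * c.s⁻¹ * r * γ * g⁻¹)) ∨
      (∃ c ∈ Q, g * γ * r⁻¹ = c.g * γ * c.r⁻¹) ∨
      (∃ c ∈ Q, g * γ * r⁻¹ * s = c.g * γ * c.r⁻¹ * c.s))
    have c2 := bad_or (fun r : G => r * (γ * g⁻¹ * γ) ∈ X) (fun r => r = s * g ∨
      r * (γ * g⁻¹ * γ) = s * g ∨ r * γ * g⁻¹ ∈ SQ ∨ (∃ s' ∈ SQ, r = s' * γ) ∨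
      (∃ c ∈ Q, r = c.s * c.g * γ) ∨ (∃ s' ∈ SQ, Fintype.card G < K * rt (s'⁻¹ * r * γ)) ∨
      (∃ c ∈ Q, Fintype.card G < K * rt (c.g⁻¹ * c.s⁻¹ * r * γ * g⁻¹)) ∨
      (∃ c ∈ Q, g * γ * r⁻¹ = c.g * γ * c.r⁻¹) ∨
      (∃ c ∈ Q, g * γ * r⁻¹ * s = c.g * γ * c.r⁻¹ * c.s))
    have c3 := bad_or (fun r : G => r = s * g) (fun r =>
      r * (γ * g⁻¹ * γ) = s * g ∨ r * γ * g⁻¹ ∈ SQ ∨ (∃ s' ∈ SQ, r = s' * γ) ∨
      (∃ c ∈ Q, r = c.s * c.g * γ) ∨ (∃ s' ∈ SQ, Fintype.card G < K * rt (s'⁻¹ * r * γ)) ∨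
      (∃ c ∈ Q, Fintype.card G < K * rt (c.g⁻¹ * c.s⁻¹ * r * γ * g⁻¹)) ∨
      (∃ c ∈ Q, g * γ * r⁻¹ = c.g * γ * c.r⁻¹) ∨
      (∃ c ∈ Q, g * γ * r⁻¹ * s = c.g * γ * c.r⁻¹ * c.s))
    have c4 := bad_or (fun r : G => r * (γ * g⁻¹ * γ) = s * g) (fun r =>
      r * γ * g⁻¹ ∈ SQ ∨ (∃ s' ∈ SQ, r = s' * γ) ∨
      (∃ c ∈ Q, r = c.s * c.g * γ) ∨ (∃ s' ∈ SQ, Fintype.card G < K * rt (s'⁻¹ * r * γ)) ∨
      (∃ c ∈ Q, Fintype.card G < K * rt (c.g⁻¹ * c.s⁻¹ * r * γ * g⁻¹)) ∨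
      (∃ c ∈ Q, g * γ * r⁻¹ = c.g * γ * c.r⁻¹) ∨
      (∃ c ∈ Q, g * γ * r⁻¹ * s = c.g * γ * c.r⁻¹ * c.s))
    have c5 := bad_or (fun r : G => r * γ * g⁻¹ ∈ SQ) (fun r => (∃ s' ∈ SQ, r = s' * γ) ∨
      (∃ c ∈ Q, r = c.s * c.g * γ) ∨ (∃ s' ∈ SQ, Fintype.card G < K * rt (s'⁻¹ * r * γ)) ∨
      (∃ c ∈ Q, Fintype.card G < K * rt (c.g⁻¹ * c.s⁻¹ * r * γ * g⁻¹)) ∨
      (∃ c ∈ Q, g * γ * r⁻¹ = c.g * γ * c.r⁻¹) ∨
      (∃ c ∈ Q, g * γ * r⁻¹ * s = c.g * γ * c.r⁻¹ * c.s))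
    have c6 := bad_or (fun r : G => (∃ s' ∈ SQ, r = s' * γ)) (fun r =>
      (∃ c ∈ Q, r = c.s * c.g * γ) ∨ (∃ s' ∈ SQ, Fintype.card G < K * rt (s'⁻¹ * r * γ)) ∨
      (∃ c ∈ Q, Fintype.card G < K * rt (c.g⁻¹ * c.s⁻¹ * r * γ * g⁻¹)) ∨
      (∃ c ∈ Q, g * γ * r⁻¹ = c.g * γ * c.r⁻¹) ∨
      (∃ c ∈ Q, g * γ * r⁻¹ * s = c.g * γ * c.r⁻¹ * c.s))
    have c7 := bad_or (fun r : G => (∃ c ∈ Q, r = c.s * c.g * γ)) (fun r =>
      (∃ s' ∈ SQ, Fintype.card G < K * rt (s'⁻¹ * r * γ)) ∨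
      (∃ c ∈ Q, Fintype.card G < K * rt (c.g⁻¹ * c.s⁻¹ * r * γ * g⁻¹)) ∨
      (∃ c ∈ Q, g * γ * r⁻¹ = c.g * γ * c.r⁻¹) ∨
      (∃ c ∈ Q, g * γ * r⁻¹ * s = c.g * γ * c.r⁻¹ * c.s))
    have c8 := bad_or (fun r : G => (∃ s' ∈ SQ, Fintype.card G < K * rt (s'⁻¹ * r * γ))) (fun r =>
      (∃ c ∈ Q, Fintype.card G < K * rt (c.g⁻¹ * c.s⁻¹ * r * γ * g⁻¹)) ∨
      (∃ c ∈ Q, g * γ * r⁻¹ = c.g * γ * c.r⁻¹) ∨
      (∃ c ∈ Q, g * γ * r⁻¹ * s = c.g * γ * c.r⁻¹ * c.s))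
    have c9 := bad_or (fun r : G =>
      (∃ c ∈ Q, Fintype.card G < K * rt (c.g⁻¹ * c.s⁻¹ * r * γ * g⁻¹))) (fun r =>
      (∃ c ∈ Q, g * γ * r⁻¹ = c.g * γ * c.r⁻¹) ∨
      (∃ c ∈ Q, g * γ * r⁻¹ * s = c.g * γ * c.r⁻¹ * c.s))
    have c10 := bad_or (fun r : G =>
      (∃ c ∈ Q, g * γ * r⁻¹ = c.g * γ * c.r⁻¹)) (fun r =>
      (∃ c ∈ Q, g * γ * r⁻¹ * s = c.g * γ * c.r⁻¹ * c.s))
    have e1 : Q.card * (K + 3) = Q.card * K + 3 * Q.card := by ring
    have e2 : SQ.card * (K + 2) = SQ.card * K + 2 * SQ.card := by ring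
    omega)
  simp only [not_or, not_exists, not_and, not_lt] at hr
  obtain ⟨r1, r2, r3, r4, r5, r6, r7, r8, r9, r10, r11⟩ := hr
  exact ⟨r, r1, r2, r3, r4, r5, fun s' hs h => r6 s' hs h.symm, fun c hc h => r7 c hc h.symm, r8,
    r9, r10, r11⟩

/-- choice of `τ` -/
lemma exT {X Y : Finset G} {a b : G} (hrt : 8 * rt (b * a⁻¹) ≤ Fintype.card G)
    (hn : 8 * (X.card + 2 * Y.card) < 7 * Fintype.card G) :
    ∃ τ : G, τ ∉ X ∧ a⁻¹ * τ ∉ Y ∧ τ⁻¹ * b ∉ Y ∧ a⁻¹ * τ ≠ τ⁻¹ * b := by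
  obtain ⟨τ, hτ⟩ := exists_good (P := fun τ : G => τ ∈ X ∨ a⁻¹ * τ ∈ Y ∨ τ⁻¹ * b ∈ Y ∨
      a⁻¹ * τ = τ⁻¹ * b) (by
    have b1 : bad (fun τ : G => τ ∈ X) ≤ X.card := bad_mem (f := fun r => r) (fun a b h => h) _
    have b2 : bad (fun τ : G => a⁻¹ * τ ∈ Y) ≤ Y.card := bad_mem (fun a b h => by simpa using h) _
    have b3 : bad (fun τ : G => τ⁻¹ * b ∈ Y) ≤ Y.card := bad_mem (fun a b h => by simpa using h) _
    have b4 : bad (fun τ : G => a⁻¹ * τ = τ⁻¹ * b) ≤ rt (b * a⁻¹) := by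
      classical
      unfold bad rt
      apply card_le_card_of_injOn (fun τ => τ * a⁻¹)
      · intro τ hτ
        simp only [coe_filter, mem_univ, true_and, Set.mem_ofPred_eq] at hτ ⊢
        calc τ * a⁻¹ * (τ * a⁻¹) = τ * (a⁻¹ * τ) * a⁻¹ := by group
          _ = b * a⁻¹ := by rw [hτ]; group
      · intro x _ y _ h
        simpa using h
    have c1 := bad_or (fun τ : G => τ ∈ X) (fun τ => a⁻¹ * τ ∈ Y ∨ τ⁻¹ * b ∈ Y ∨
      a⁻¹ * τ = τ⁻¹ * b)
    have c2 := bad_or (fun τ : G => a⁻¹ * τ ∈ Y) (fun τ => τ⁻¹ * b ∈ Y ∨ a⁻¹ * τ = τ⁻¹ * b)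
    have c3 := bad_or (fun τ : G => τ⁻¹ * b ∈ Y) (fun τ => a⁻¹ * τ = τ⁻¹ * b)
    omega)
  simp only [not_or] at hτ
  exact ⟨τ, hτ.1, hτ.2.1, hτ.2.2.1, hτ.2.2.2⟩

/-- the invariant of the greedy choice -/
structure Inv (K k : ℕ) (γ : G) (FV FC SQ T : Finset G) (Q : Finset (Cp G)) : Prop where
  im : Q.image Cp.s = T
  gp : GenPos K k γ Q
  fr : Fresh k FV FC (cgad γ Q)
  e1 : ∀ c ∈ Q, c.r * γ * c.g⁻¹ ∉ SQ
  e2 : ∀ c ∈ Q, ∀ s ∈ SQ, s * γ ≠ c.r
  e3 : ∀ c ∈ Q, ∀ s ∈ SQ, K * rt (s⁻¹ * c.r * γ) ≤ Fintype.card G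
  e4 : ∀ x ∈ (cgad γ Q).verts k, x ∈ SQ → x ∈ T

lemma pair_insert {α : Type} [DecidableEq α] {a : α} {Q : Finset α} {P : α → α → Prop}
    (h1 : ∀ c ∈ Q, P a c) (h2 : ∀ c ∈ Q, P c a) (h3 : ∀ c ∈ Q, ∀ c' ∈ Q, c ≠ c' → P c c') :
    ∀ c ∈ insert a Q, ∀ c' ∈ insert a Q, c ≠ c' → P c c' := by
  intro c hc c' hc' hne
  rcases mem_insert.1 hc with k1 | k1
  · rcases mem_insert.1 hc' with k2 | k2
    · exact absurd (k1.trans k2.symm) hne
    · rw [k1]; exact h1 c' k2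
  · rcases mem_insert.1 hc' with k2 | k2
    · rw [k2]; exact h2 c k1
    · exact h3 c k1 c' k2 hne

lemma inj_insert {α β : Type} [DecidableEq α] {a : α} {Q : Finset α} {f : α → β}
    (h1 : Set.InjOn f (Q : Set α)) (h2 : ∀ c ∈ Q, f a ≠ f c) :
    Set.InjOn f ((insert a Q : Finset α) : Set α) := by
  intro c hc c' hc' h
  rw [mem_coe, mem_insert] at hc hc'
  rcases hc with k1 | k1
  · rcases hc' with k2 | k2
    · exact k1.trans k2.symm
    · exact absurd (k1 ▸ h) (h2 c' k2)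
  · rcases hc' with k2 | k2
    · exact absurd (k2 ▸ h.symm) (h2 c k1)
    · exact h1 k1 k2 h

omit [Fintype G] in
lemma cgad_insert {γ : G} {c : Cp G} {Q : Finset (Cp G)} (hc : c ∉ Q) :
    cgad γ (insert c Q) = (cgad γ Q).add ⟨c.I γ, 0, 0⟩ := by
  unfold cgad Gad.add
  simp only [insert_val_of_notMem hc, Multiset.cons_bind, add_zero]
  rw [add_comm]

omit [Fintype G] [DecidableEq G] in
lemma card_I (γ : G) (Q : Finset (Cp G)) : Multiset.card (cgad γ Q).I = 2 * Q.card := by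
  unfold cgad
  simp only [Multiset.card_bind]
  have : (Multiset.card ∘ Cp.I γ : Cp G → ℕ) = fun _ => 2 := by
    funext c
    simp [Cp.I]
  rw [this]
  simp [mul_comm]

omit [Fintype G] [DecidableEq G] in
lemma size_cgad (γ : G) (Q : Finset (Cp G)) : (cgad γ Q).size = 2 * Q.card := by
  have := card_I γ Q
  unfold Gad.size
  rw [this]
  simp [cgad]

omit [Fintype G] [DecidableEq G] in
lemma verts_pair (k : ℕ) (i j : SI G) :
    (⟨{i, j}, 0, 0⟩ : Gad G).verts k = jl k i + jl k j := by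
  unfold Gad.verts
  simp [Multiset.insert_eq_cons]

omit [Fintype G] [DecidableEq G] in
lemma cols_pair (k : ℕ) (i j : SI G) :
    (⟨{i, j}, 0, 0⟩ : Gad G).cols k = tl k i + tl k j := by
  unfold Gad.cols
  simp [Multiset.insert_eq_cons]

/-- freshness of one couple -/
lemma freshE {k : ℕ} {γ s r g τ τ' : G} {X Y : Finset G} (hγ : γ * γ = 1) (hs : s ∉ X)
    (h3 : k = 3 → g = 1) (hr : r ∉ X) (hrs : r ≠ s) (hrt : r ≠ s * g)
    (h4 : k ≠ 3 → s * g ∉ X ∧ s * g ≠ s ∧ r * (γ * g⁻¹ * γ) ∉ X ∧ r * (γ * g⁻¹ * γ) ≠ s ∧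
      r * (γ * g⁻¹ * γ) ≠ r ∧ r * (γ * g⁻¹ * γ) ≠ s * g)
    (hc4 : k = 4 → g⁻¹ ∉ Y ∧ γ * g * γ ∉ Y ∧ g⁻¹ ≠ γ * g * γ) (h1Y : (1 : G) ∈ Y)
    (h5 : k = 5 → (τ ∉ X ∧ τ ≠ s ∧ τ ≠ s * g ∧ τ ≠ r ∧ τ ≠ r * (γ * g⁻¹ * γ)) ∧
      (τ' ∉ X ∧ τ' ≠ s ∧ τ' ≠ s * g ∧ τ' ≠ r ∧ τ' ≠ r * (γ * g⁻¹ * γ) ∧ τ' ≠ τ) ∧
      (s * g)⁻¹ * τ ∉ Y ∧ τ⁻¹ * s ∉ Y ∧ (s * g)⁻¹ * τ ≠ τ⁻¹ * s ∧
      (r * (γ * g⁻¹ * γ))⁻¹ * τ' ∉ Y ∧ τ'⁻¹ * r ∉ Y ∧
      (r * (γ * g⁻¹ * γ))⁻¹ * τ' ≠ τ'⁻¹ * r ∧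
      (r * (γ * g⁻¹ * γ))⁻¹ * τ' ≠ (s * g)⁻¹ * τ ∧ (r * (γ * g⁻¹ * γ))⁻¹ * τ' ≠ τ⁻¹ * s ∧
      τ'⁻¹ * r ≠ (s * g)⁻¹ * τ ∧ τ'⁻¹ * r ≠ τ⁻¹ * s) :
    Fresh k X Y ⟨(⟨s, r, g, τ, τ'⟩ : Cp G).I γ, 0, 0⟩ := by
  have hI : (⟨s, r, g, τ, τ'⟩ : Cp G).I γ = {(s, s * g, τ), (r, r * (γ * g⁻¹ * γ), τ')} := rfl
  rw [hI]
  have hne : ∀ x, x ∉ Y → x ≠ 1 := fun x hx h => hx (h ▸ h1Y)
  by_cases k3 : k = 3
  · have hg := h3 k3
    subst k3
    refine ⟨?_, ?_, ?_, ?_, ?_, ?_⟩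
    · intro _ i hi
      simp only [Multiset.insert_eq_cons, Multiset.mem_cons, Multiset.mem_singleton] at hi
      rcases hi with rfl | rfl
      · simp [hg]
      · simp [hg, hγ]
    · rw [verts_pair]
      simp [jl, hrs.symm]
    · rw [verts_pair]
      simp [jl, hs, hr]
    · rw [cols_pair]
      simp [tl]
    · rw [cols_pair]
      simp [tl]
    · rw [cols_pair]
      simp [tl]
  · obtain ⟨a1, a2, a3, a4, a5, a6⟩ := h4 k3
    by_cases k5 : k = 5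
    · obtain ⟨⟨t1, t2, t3, t4, t5⟩, ⟨u1, u2, u3, u4, u5, u6⟩, v1, v2, v3, v4, v5, v6, v7, v8, v9, v10⟩ :=
        h5 k5
      subst k5
      refine ⟨fun h => absurd h k3, ?_, ?_, ?_, ?_, ?_⟩
      · rw [verts_pair]
        simp only [jl, if_neg k3, if_true, Multiset.insert_eq_cons, Multiset.cons_add,
          Multiset.singleton_add, Multiset.nodup_cons, Multiset.mem_cons, Multiset.mem_singleton,
          Multiset.nodup_singleton, and_true, not_or]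
        exact ⟨⟨a2.symm, t2.symm, hrs.symm, a4.symm, u2.symm⟩, ⟨t3.symm, hrt.symm, a6.symm, u3.symm⟩,
          ⟨t4, t5, u6.symm⟩, ⟨a5.symm, u4.symm⟩, u5.symm⟩
      · rw [verts_pair]
        simp only [jl, if_neg k3, if_true, Multiset.insert_eq_cons, Multiset.cons_add,
          Multiset.singleton_add, Multiset.mem_cons, Multiset.mem_singleton]
        rintro x (rfl | rfl | rfl | rfl | rfl | rfl) <;> assumption
      · rw [cols_pair]
        simp only [tl, if_neg (show ¬ (5 : ℕ) = 4 by decide), if_true, Multiset.insert_eq_cons,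
          Multiset.cons_add,
          Multiset.singleton_add, Multiset.nodup_cons, Multiset.mem_cons, Multiset.mem_singleton,
          Multiset.nodup_singleton, and_true, not_or]
        exact ⟨⟨v3, v7.symm, v9.symm⟩, ⟨v8.symm, v10.symm⟩, v6⟩
      · rw [cols_pair]
        simp only [tl, if_neg (show ¬ (5 : ℕ) = 4 by decide), if_true, Multiset.insert_eq_cons,
          Multiset.cons_add, Multiset.singleton_add, Multiset.mem_cons, Multiset.mem_singleton]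
        rintro x (rfl | rfl | rfl | rfl) <;> assumption
      · rw [cols_pair]
        simp only [tl, if_neg (show ¬ (5 : ℕ) = 4 by decide), if_true, Multiset.insert_eq_cons,
          Multiset.cons_add, Multiset.singleton_add, Multiset.mem_cons, Multiset.mem_singleton]
        rintro x (rfl | rfl | rfl | rfl) <;> exact hne _ (by assumption)
    · have hj : ∀ i : SI G, jl k i = {i.1, i.2.1} := by
        intro i
        simp [jl, k3, k5]
      have vnd : ((⟨{(s, s * g, τ), (r, r * (γ * g⁻¹ * γ), τ')}, 0, 0⟩ : Gad G).verts k).Nodup := by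
        rw [verts_pair, hj, hj]
        simp only [Multiset.insert_eq_cons, Multiset.cons_add,
          Multiset.singleton_add, Multiset.nodup_cons, Multiset.mem_cons, Multiset.mem_singleton,
          Multiset.nodup_singleton, and_true, not_or]
        exact ⟨⟨a2.symm, hrs.symm, a4.symm⟩, ⟨hrt.symm, a6.symm⟩, a5.symm⟩
      have vfr : ∀ x ∈ (⟨{(s, s * g, τ), (r, r * (γ * g⁻¹ * γ), τ')}, 0, 0⟩ : Gad G).verts k,
          x ∉ X := by
        rw [verts_pair, hj, hj]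
        simp only [Multiset.insert_eq_cons, Multiset.cons_add, Multiset.singleton_add,
          Multiset.mem_cons, Multiset.mem_singleton]
        rintro x (rfl | rfl | rfl | rfl) <;> assumption
      by_cases k4 : k = 4
      · obtain ⟨b1, b2, b3⟩ := hc4 k4
        have e1 : (s * g)⁻¹ * s = g⁻¹ := by group
        have e2 : (r * (γ * g⁻¹ * γ))⁻¹ * r = γ * g * γ := by
          have hγi : γ⁻¹ = γ := inv_eq_of_mul_eq_one_left hγ
          simp only [mul_inv_rev, inv_inv, hγi]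
          group
        have ht : tl k (s, s * g, τ) + tl k (r, r * (γ * g⁻¹ * γ), τ') = {g⁻¹, γ * g * γ} := by
          simp only [tl, if_pos k4, e1, e2]
          rfl
        refine ⟨fun h => absurd h k3, vnd, vfr, ?_, ?_, ?_⟩
        · rw [cols_pair, ht]
          simp [b3]
        · rw [cols_pair, ht]
          simp only [Multiset.insert_eq_cons, Multiset.mem_cons, Multiset.mem_singleton]
          rintro x (rfl | rfl) <;> assumption
        · rw [cols_pair, ht]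
          simp only [Multiset.insert_eq_cons, Multiset.mem_cons, Multiset.mem_singleton]
          rintro x (rfl | rfl) <;> exact hne _ (by assumption)
      · have ht : ∀ i : SI G, tl k i = 0 := by
          intro i
          simp [tl, k4, k5]
        refine ⟨fun h => absurd h k3, vnd, vfr, ?_, ?_, ?_⟩ <;>
          · rw [cols_pair, ht, ht]
            simp

/-- one step of the greedy choice -/
lemma step {K k : ℕ} {γ : G} {FV FC SQ T : Finset G} {Q : Finset (Cp G)}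
    (hkn : k ∣ Fintype.card G - 1) (hγ : γ * γ = 1) (hd : Disjoint SQ FV)
    (hF : 100 * (FV.card + FC.card) ≤ Fintype.card G)
    (hS : 4 * (2 * K + 40) * (SQ.card + 1) ≤ Fintype.card G) (hT : T ⊆ SQ)
    (h : Inv K k γ FV FC SQ T Q) {s : G} (hs : s ∈ SQ) (hsT : s ∉ T) :
    ∃ Q' : Finset (Cp G), Inv K k γ FV FC SQ (insert s T) Q' := by
  obtain ⟨im, gp, fr, e1, e2, e3, e4⟩ := h
  have hcard : Q.card = T.card := by
    rw [← im, card_image_of_injOn gp.i1]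
  have hQS : Q.card ≤ SQ.card := hcard ▸ card_le_card hT
  have hsQ : ∀ c ∈ Q, c.s ∈ T := fun c hc => im ▸ mem_image_of_mem _ hc
  have hsQ' : ∀ c ∈ Q, c.s ∈ SQ := fun c hc => hT (hsQ c hc)
  obtain ⟨X, hX⟩ : ∃ X, X = FV ∪ SQ ∪ (cgad γ Q).vf k := ⟨_, rfl⟩
  obtain ⟨Y, hY⟩ : ∃ Y, Y = insert 1 (FC ∪ (cgad γ Q).cf k) := ⟨_, rfl⟩
  have cX : X.card ≤ FV.card + SQ.card + 6 * Q.card := by
    rw [hX]
    have h1 := Gad.card_vf_le k (cgad γ Q)
    rw [size_cgad] at h1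
    have h2 := card_union_le (FV ∪ SQ) ((cgad γ Q).vf k)
    have h3 := card_union_le FV SQ
    omega
  have cY : Y.card ≤ FC.card + 4 * Q.card + 1 := by
    rw [hY]
    have h1 := Gad.card_cf_le k (cgad γ Q)
    rw [size_cgad] at h1
    have h2 := card_union_le FC ((cgad γ Q).cf k)
    have h3 := card_insert_le 1 (FC ∪ (cgad γ Q).cf k)
    omega
  have hpos : 0 < Fintype.card G := Fintype.card_pos
  have n1 : Q.card * K ≤ SQ.card * K := Nat.mul_le_mul_right K hQS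
  have n2 : 4 * (2 * K + 40) * (SQ.card + 1) =
      8 * (SQ.card * K) + 160 * SQ.card + 8 * K + 160 := by ring
  have hsX : s ∈ X := by rw [hX]; simp [hs]
  obtain ⟨g, g0, g1, g2, g3, g4, g5, g6, g7⟩ := exG (K := K) (k := k) (γ := γ) (s := s) (Q := Q)
    (X := X) (Y := Y) hkn hγ (by
      have : Q.card * (K + 3) = Q.card * K + 3 * Q.card := by ring
      omega) (fun c hc => e2 c hc s hs) (fun c hc => e3 c hc s hs) gp.k3
    (fun c hc h => hsT (h ▸ hsQ c hc))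
  obtain ⟨r, r1, r2, r3, r4, r5, r6, r7, r8, r9, r10, r11⟩ := exR (K := K) (γ := γ) (s := s)
    (g := g) (Q := Q) (X := X) (SQ := SQ) (by
      have h1 : Q.card * (K + 3) = Q.card * K + 3 * Q.card := by ring
      have h2 : SQ.card * (K + 2) = SQ.card * K + 2 * SQ.card := by ring
      omega)
  have hγi : γ⁻¹ = γ := inv_eq_of_mul_eq_one_left hγ
  obtain ⟨t, ht⟩ : ∃ t, t = s * g := ⟨_, rfl⟩
  obtain ⟨t', ht'⟩ : ∃ t', t' = r * (γ * g⁻¹ * γ) := ⟨_, rfl⟩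
  obtain ⟨τ, τ', hτ⟩ : ∃ τ τ' : G, k = 5 → (τ ∉ X ∧ τ ≠ s ∧ τ ≠ t ∧ τ ≠ r ∧ τ ≠ t') ∧
      (τ' ∉ X ∧ τ' ≠ s ∧ τ' ≠ t ∧ τ' ≠ r ∧ τ' ≠ t' ∧ τ' ≠ τ) ∧
      t⁻¹ * τ ∉ Y ∧ τ⁻¹ * s ∉ Y ∧ t⁻¹ * τ ≠ τ⁻¹ * s ∧
      t'⁻¹ * τ' ∉ Y ∧ τ'⁻¹ * r ∉ Y ∧ t'⁻¹ * τ' ≠ τ'⁻¹ * r ∧
      t'⁻¹ * τ' ≠ t⁻¹ * τ ∧ t'⁻¹ * τ' ≠ τ⁻¹ * s ∧
      τ'⁻¹ * r ≠ t⁻¹ * τ ∧ τ'⁻¹ * r ≠ τ⁻¹ * s := by
    by_cases k5 : k = 5
    · have hg := g7 k5
      obtain ⟨τ, u1, u2, u3, u4⟩ := exT (X := X ∪ {t, r, t'}) (Y := Y) (a := t) (b := s) (by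
        have : s * t⁻¹ = s * g⁻¹ * s⁻¹ := by rw [ht]; group
        rw [this, rt_conj, rt_inv]
        exact hg) (by
        have h1 := card_union_le X {t, r, t'}
        have h2 : ({t, r, t'} : Finset G).card ≤ 3 := card_le_three
        omega)
      obtain ⟨τ', w1, w2, w3, w4⟩ := exT (X := X ∪ {t, r, t', τ}) (Y := Y ∪ {t⁻¹ * τ, τ⁻¹ * s})
        (a := t') (b := r) (by
        have : r * t'⁻¹ = (r * γ) * g * (r * γ)⁻¹ := by
          rw [ht']
          simp only [mul_inv_rev, inv_inv, hγi]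
          group
        rw [this, rt_conj]
        exact hg) (by
        have h1 := card_union_le X {t, r, t', τ}
        have h2 : ({t, r, t', τ} : Finset G).card ≤ 4 := card_le_four
        have h3 := card_union_le Y {t⁻¹ * τ, τ⁻¹ * s}
        have h4 : ({t⁻¹ * τ, τ⁻¹ * s} : Finset G).card ≤ 2 := card_le_two
        omega)
      simp only [mem_union, mem_insert, mem_singleton, not_or] at u1 w1 w2 w3
      refine ⟨τ, τ', fun _ => ⟨⟨u1.1, fun h => u1.1 (h ▸ hsX), u1.2.1, u1.2.2.1, u1.2.2.2⟩,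
        ⟨w1.1, fun h => w1.1 (h ▸ hsX), w1.2.1, w1.2.2.1, w1.2.2.2.1, w1.2.2.2.2⟩, u2, u3, u4,
        w2.1, w3.1, w4, w2.2.1, w2.2.2, w3.2.1, w3.2.2⟩⟩
    · exact ⟨1, 1, fun h => absurd h k5⟩
  have hrs : r ≠ s := fun h => r1 (h ▸ hsX)
  have hsv : s ∉ FV ∪ (cgad γ Q).vf k := by
    rw [mem_union, not_or]
    refine ⟨fun h => (disjoint_left.1 hd) hs h, fun h => hsT (e4 s ?_ hs)⟩
    simpa [Gad.vf] using h
  have hsub : FV ∪ (cgad γ Q).vf k ⊆ X := by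
    rw [hX]
    intro x hx
    simp only [mem_union] at hx ⊢
    tauto
  have hsubY : FC ∪ (cgad γ Q).cf k ⊆ Y := by
    rw [hY]
    exact subset_insert _ _
  have hE : Fresh k (FV ∪ (cgad γ Q).vf k) Y ⟨(⟨s, r, g, τ, τ'⟩ : Cp G).I γ, 0, 0⟩ := by
    apply freshE hγ hsv g0 (fun h => r1 (hsub h)) hrs r3
    · intro k3
      obtain ⟨a1, a2⟩ := g5 k3
      refine ⟨fun h => a1 (hsub h), ?_, fun h => r2 (hsub h), fun h => r2 (h ▸ hsX), ?_, r4⟩
      · intro h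
        apply a2
        simpa using h
      · intro h
        apply a2
        have h1 : γ * g⁻¹ * γ = 1 := by simpa using h
        have h2 : g⁻¹ = γ * γ := by
          calc g⁻¹ = γ⁻¹ * (γ * g⁻¹ * γ) * γ⁻¹ := by group
            _ = γ * γ := by rw [h1, hγi]; group
        rw [hγ] at h2
        simpa using h2
    · exact g6
    · rw [hY]
      exact mem_insert_self _ _
    · rw [← ht, ← ht']
      intro k5
      obtain ⟨⟨t1, t2⟩, ⟨u1, u2⟩, v⟩ := hτ k5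
      exact ⟨⟨fun h => t1 (hsub h), t2⟩, ⟨fun h => u1 (hsub h), u2⟩, v⟩
  obtain ⟨c, hc⟩ : ∃ c : Cp G, c = ⟨s, r, g, τ, τ'⟩ := ⟨_, rfl⟩
  have hcQ : c ∉ Q := by
    intro h
    apply hsT
    have := hsQ c h
    rw [hc] at this
    exact this
  rw [← hc] at hE
  have cs : c.s = s := by rw [hc]
  have cr : c.r = r := by rw [hc]
  have cg : c.g = g := by rw [hc]
  refine ⟨insert c Q, ?_, ?_, ?_, ?_, ?_, ?_, ?_⟩
  · rw [image_insert, im, cs]
  · refine ⟨?_, ?_, ?_, ?_, ?_, ?_, ?_, ?_, ?_, ?_, ?_⟩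
    · intro k3 a ha
      rcases mem_insert.1 ha with rfl | ha
      · rw [cg]; exact g0 k3
      · exact gp.k3 k3 a ha
    · intro a ha
      rcases mem_insert.1 ha with rfl | ha
      · rw [cr, cg, cs]
        intro h
        exact r5 (h ▸ hs)
      · exact gp.w1 a ha
    · apply pair_insert
      · intro a ha
        rw [cr, cg]
        intro h
        exact r5 (h ▸ hsQ' a ha)
      · intro a ha
        rw [cs]
        intro h
        exact e1 a ha (h ▸ hs)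
      · exact gp.w2
    · apply pair_insert
      · intro a ha
        rw [cr]
        exact r7 a ha
      · intro a ha
        rw [cs, cg]
        exact g1 a ha
      · exact gp.w3
    · apply pair_insert
      · intro a ha
        rw [cr]
        exact r8 _ (hsQ' a ha)
      · intro a ha
        rw [cs]
        exact e3 a ha s hs
      · exact gp.r1
    · apply pair_insert
      · intro a ha
        rw [cr, cg]
        exact r9 a ha
      · intro a ha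
        rw [cs, cg]
        exact g2 a ha
      · exact gp.r2
    · apply inj_insert gp.i1
      intro a ha
      rw [cs]
      intro h
      exact hsT (h ▸ hsQ a ha)
    · apply inj_insert gp.i2
      intro a ha
      rw [cs, cg]
      exact g3 a ha
    · apply inj_insert gp.i3
      intro a ha
      rw [cr, cg]
      exact r10 a ha
    · apply inj_insert gp.i4
      intro a ha
      rw [cs, cr, cg]
      exact r11 a ha
    · intro k3
      apply inj_insert (gp.i5 k3)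
      intro a ha
      rw [cg]
      exact g4 k3 a ha
  · rw [cgad_insert hcQ]
    exact fr.add (hE.mono (le_refl _) hsubY)
  · intro a ha
    rcases mem_insert.1 ha with rfl | ha
    · rw [cr, cg]; exact r5
    · exact e1 a ha
  · intro a ha
    rcases mem_insert.1 ha with rfl | ha
    · rw [cr]; exact r6
    · exact e2 a ha
  · intro a ha
    rcases mem_insert.1 ha with rfl | ha
    · rw [cr]; exact r8
    · exact e3 a ha
  · intro x hx hxS
    rw [cgad_insert hcQ, Gad.add_verts, Multiset.mem_add] at hx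
    rcases hx with hx | hx
    · exact mem_insert_of_mem (e4 x hx hxS)
    · have hxX : x ∈ X := by
        rw [hX]
        simp [hxS]
      have hI : c.I γ = {(s, s * g, τ), (r, r * (γ * g⁻¹ * γ), τ')} := by rw [hc]; rfl
      rw [hI, verts_pair, Multiset.mem_add] at hx
      by_cases k3 : k = 3
      · simp only [jl, if_pos k3, Multiset.mem_singleton] at hx
        rcases hx with rfl | rfl
        · exact mem_insert_self _ _
        · exact absurd hxX r1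
      · obtain ⟨a1, a2⟩ := g5 k3
        by_cases k5 : k = 5
        · obtain ⟨⟨t1, -⟩, ⟨u1, -⟩, -⟩ := hτ k5
          simp only [jl, if_neg k3, if_pos k5, Multiset.insert_eq_cons, Multiset.mem_cons,
            Multiset.mem_singleton] at hx
          rcases hx with (rfl | rfl | rfl) | (rfl | rfl | rfl)
          · exact mem_insert_self _ _
          · exact absurd hxX a1
          · exact absurd hxX t1
          · exact absurd hxX r1
          · exact absurd hxX r2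
          · exact absurd hxX u1
        · simp only [jl, if_neg k3, if_neg k5, Multiset.insert_eq_cons, Multiset.mem_cons,
            Multiset.mem_singleton] at hx
          rcases hx with (rfl | rfl) | (rfl | rfl)
          · exact mem_insert_self _ _
          · exact absurd hxX a1
          · exact absurd hxX r1
          · exact absurd hxX r2

theorem stmt_CPL : Stmt_CPL := by
  intro K
  refine ⟨4 * (2 * K + 40), ?_⟩
  intro G _ _ _ k γ FV FC SQ hk hkn hγ _ hd hF hS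
  have key : ∀ T : Finset G, T ⊆ SQ → ∃ Q : Finset (Cp G), Inv K k γ FV FC SQ T Q := by
    intro T
    induction T using Finset.induction_on with
    | empty =>
      intro _
      refine ⟨∅, ?_, ?_, ?_, ?_, ?_, ?_, ?_⟩
      · simp
      · constructor <;> simp
      · constructor <;> simp [cgad, Gad.verts, Gad.cols]
      · simp
      · simp
      · simp
      · simp [cgad, Gad.verts]
    | insert s T hsT ih =>
      intro hT
      obtain ⟨Q, hQ⟩ := ih ((subset_insert _ _).trans hT)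
      exact step hkn hγ hd hF hS ((subset_insert _ _).trans hT) hQ
        (hT (mem_insert_self _ _)) hsT
  obtain ⟨Q, hQ⟩ := key SQ (le_refl _)
  exact ⟨Q, hQ.im, hQ.gp, hQ.fr⟩

end Pool.OM.helper52
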